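import Pool.Agent.Helper89.Hole.Win

/-!
The bichromatic Maker-Breaker `k`-hole game: `s(k)` is infinite exactly for `k ≤ 5`.
-/

namespace Pool.Agent.Results.MP_91a033_co.FiniteSpeed

open KHole

/-- For `3 ≤ k ≤ 5` the speed `s(k)` is infinite; indeed Maker has a winning strategy in the
`k`-hole game against every bounded sequence of numbers of points of Breaker per round.  For
`k ≥ 6` Breaker wins with speed 6. -/
theorem result :
    (∀ k : ℕ, 3 ≤ k → k ≤ 5 → speed k = ⊤ ∧
      ∀ (c : ℕ → ℕ) (s : ℕ), (∀ n, c n ≤ s) → MakerWins k c) ∧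
    (∀ k : ℕ, 6 ≤ k → speed k ≤ 6) :=
  ⟨fun _ _ hk => ⟨speed_eq_top hk, fun c s hc => makerWins_of_bounded hk c s hc⟩,
    fun _ hk => speed_six hk⟩

end Pool.Agent.Results.MP_91a033_co.FiniteSpeed
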