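import Pool.Agent.Helper89.Hole.Five

/-!
The bichromatic Maker-Breaker `k`-hole game: `s(k) ≤ 5` for `k ≥ 7`.
-/

namespace Pool.Agent.Results.MP_91a033_co.SpeedFive

open KHole

/-- Breaker wins the `k`-hole game with speed 5 for every `k ≥ 7`. -/
theorem result : ∀ k : ℕ, 7 ≤ k → speed k ≤ 5 :=
  fun _ hk => speed_seven hk

end Pool.Agent.Results.MP_91a033_co.SpeedFive
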